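import Pool.Agent.Lib.MP_fd4af6_gt.Close

/-!
Every convex curve of length one is the uniform limit of a `d_B`-Cauchy sequence of billiard
tables, and this sequence is unique up to `d_B`-equivalence among all sequences of tables that
converge uniformly to the curve.
-/

set_option autoImplicit false

open Set Real Filter Topology
open scoped ENNReal
open Pool.Agent.Lib.MP_fd4af6_gt

namespace Pool.Agent.Lib.MP_fd4af6_gt.Variants.CauchyClass

lemma dense (C : ℝ → ℂ) (hC : IsConvexLoop C) (hunit : HasUnitSpeedOn C Set.univ) :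
    ∃ α : ℕ → ℝ → ℂ, (∀ i, IsTable (α i)) ∧ TendstoUniformly α C Filter.atTop := by
  obtain ⟨L, κ, T⟩ := exists_tanData hC hunit
  obtain ⟨B, hB, hadm⟩ := T.exists_adm
  set e : ℕ → ℝ := fun n => 1 / ((n : ℝ) + 1) with he
  have hepos : ∀ n, 0 < e n := fun n => by simp only [he]; positivity
  have he1 : ∀ n, e n ≤ 1 := fun n => by
    simp only [he]; rw [div_le_one (by positivity)]; linarith [Nat.cast_nonneg (α := ℝ) n]
  have helim : Tendsto e atTop (𝓝 0) := tendsto_one_div_add_atTop_nhds_zero_nat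
  choose Λ hΛ hs using fun n => hadm (e n) (hepos n) (he1 n)
  refine ⟨fun n => curve (Λ n) (C (L 0) - L 0), fun n => (hΛ n).isTable_curve _, ?_⟩
  rw [Metric.tendstoUniformly_iff]
  intro ε hε
  have h1 : Tendsto (fun n => e n * (5 + 2 * π * B + 2 * B)) atTop (𝓝 0) := by
    simpa using helim.mul_const (5 + 2 * π * B + 2 * B)
  have h2 : Tendsto (fun n => 2 * e n) atTop (𝓝 0) := by simpa using helim.const_mul 2
  filter_upwards [h1.eventually (gt_mem_nhds hε), h2.eventually (gt_mem_nhds T.κpos)]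
    with n hn1 hn2 q
  rw [dist_comm, dist_eq_norm]
  exact lt_of_le_of_lt (T.curve_close (hΛ n) (hepos n).le (he1 n) hn2 hB (hs n) q) hn1

lemma joint {C : ℝ → ℂ} {α β : ℕ → ℝ → ℂ} (hα : ∀ i, IsTable (α i)) (hβ : ∀ i, IsTable (β i))
    (ha : TendstoUniformly α C atTop) (hb : TendstoUniformly β C atTop) {ε : ℝ≥0∞}
    (hε : 0 < ε) : ∃ N : ℕ, ∀ i ≥ N, ∀ j ≥ N, dB (α i) (β j) < ε := by
  have h0 : Tendsto (fun δ : ℝ => ENNReal.ofReal ((2 + 3 * π) * (δ + δ))) (𝓝[>] 0) (𝓝 0) := by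
    have h1 : Continuous fun δ : ℝ => ENNReal.ofReal ((2 + 3 * π) * (δ + δ)) :=
      ENNReal.continuous_ofReal.comp (by fun_prop)
    simpa using (h1.tendsto 0).mono_left (nhdsWithin_le_nhds (s := Ioi 0))
  obtain ⟨δ, h1, h2⟩ := ((h0.eventually (gt_mem_nhds hε)).and self_mem_nhdsWithin).exists
  obtain ⟨N, hN⟩ := eventually_atTop.1
    ((Metric.tendstoUniformly_iff.1 ha δ h2).and (Metric.tendstoUniformly_iff.1 hb δ h2))
  refine ⟨N, fun i hi j hj => lt_of_le_of_lt (dB_le_of_close (hα i) (hβ j) fun q => ?_) h1⟩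
  rw [← dist_eq_norm]
  exact (dist_triangle_left _ _ (C q)).trans (add_le_add ((hN i hi).1 q).le ((hN j hj).2 q).le)

/-- Let `C : ℝ/ℤ → ℝ²` be a simple closed curve, parametrized counterclockwise by arc length
(so of length one), that bounds a convex set. Then some sequence `α` of billiard tables is Cauchy
for the geometric distance `d_B` and converges uniformly to `C`, and every sequence `β` of
billiard tables converging uniformly to `C` is `d_B`-Cauchy and `d_B`-equivalent to `α`. -/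
theorem result (C : ℝ → ℂ) (hC : IsConvexLoop C) (hunit : HasUnitSpeedOn C Set.univ) :
    ∃ α : ℕ → ℝ → ℂ, (∀ i, IsTable (α i)) ∧
      (∀ ε : ℝ≥0∞, 0 < ε → ∃ N : ℕ, ∀ i ≥ N, ∀ j ≥ N, dB (α i) (α j) < ε) ∧
      TendstoUniformly α C Filter.atTop ∧
      ∀ β : ℕ → ℝ → ℂ, (∀ i, IsTable (β i)) → TendstoUniformly β C Filter.atTop →
        ∀ ε : ℝ≥0∞, 0 < ε → ∃ N : ℕ, ∀ i ≥ N, ∀ j ≥ N,
          dB (β i) (β j) < ε ∧ dB (α i) (β j) < ε := by
  obtain ⟨α, hα, ha⟩ := dense C hC hunit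
  refine ⟨α, hα, fun ε hε => joint hα hα ha ha hε, ha, fun β hβ hb ε hε => ?_⟩
  obtain ⟨N, hN⟩ := joint hβ hβ hb hb hε
  obtain ⟨M, hM⟩ := joint hα hβ ha hb hε
  exact ⟨max N M, fun i hi j hj => ⟨hN i (le_of_max_le_left hi) j (le_of_max_le_left hj),
    hM i (le_of_max_le_right hi) j (le_of_max_le_right hj)⟩⟩

end Pool.Agent.Lib.MP_fd4af6_gt.Variants.CauchyClass
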